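import Mathlib

/-! Counting polynomials in two variables with bounded coefficients. -/

set_option autoImplicit false

namespace Pool.Agent.Q196.SV

open Finset MvPolynomial

abbrev P2 : Type := MvPolynomial (Fin 2) ℤ

/-- the polynomials with monomials in `M` and coefficients of absolute value at most `H` -/
def PB (M : Finset (Fin 2 →₀ ℕ)) (H : ℕ) : Set P2 :=
  {F | (∀ m, m ∉ M → coeff m F = 0) ∧ ∀ m, |coeff m F| ≤ (H : ℤ)}

/-- the polynomial with given coefficients -/
noncomputable def mk (M : Finset (Fin 2 →₀ ℕ)) (c : M → ℤ) : P2 :=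
  ∑ m : M, monomial (m : Fin 2 →₀ ℕ) (c m)

lemma coeff_mk (M : Finset (Fin 2 →₀ ℕ)) (c : M → ℤ) (m : M) : coeff (m : Fin 2 →₀ ℕ) (mk M c) = c m := by
  classical
  unfold mk
  rw [coeff_sum, Finset.sum_eq_single m]
  · rw [coeff_monomial, if_pos rfl]
  · intro b _ hb
    rw [coeff_monomial, if_neg]
    intro h
    exact hb (Subtype.ext h)
  · intro h
    exact absurd (Finset.mem_univ m) h

lemma coeff_mk_not (M : Finset (Fin 2 →₀ ℕ)) (c : M → ℤ) (m : Fin 2 →₀ ℕ) (hm : m ∉ M) :
    coeff m (mk M c) = 0 := by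
  classical
  unfold mk
  rw [coeff_sum]
  apply Finset.sum_eq_zero
  intro b _
  rw [coeff_monomial, if_neg]
  rintro rfl
  exact hm b.2

lemma PB_eq (M : Finset (Fin 2 →₀ ℕ)) (H : ℕ) :
    PB M H = (mk M) '' (Fintype.piFinset (fun _ : M => Finset.Icc (-(H : ℤ)) H) : Set (M → ℤ)) := by
  ext F
  simp only [Set.mem_image, Finset.mem_coe, Fintype.mem_piFinset, Finset.mem_Icc]
  constructor
  · rintro ⟨h1, h2⟩
    refine ⟨fun m => coeff (m : Fin 2 →₀ ℕ) F, fun m => abs_le.1 (h2 m), ?_⟩
    ext m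
    by_cases hm : m ∈ M
    · exact coeff_mk M _ ⟨m, hm⟩
    · rw [coeff_mk_not M _ m hm, h1 m hm]
  · rintro ⟨c, hc, rfl⟩
    refine ⟨fun m hm => coeff_mk_not M c m hm, fun m => ?_⟩
    by_cases hm : m ∈ M
    · have := coeff_mk M c ⟨m, hm⟩
      dsimp only at this
      rw [this]
      exact abs_le.2 (hc _)
    · rw [coeff_mk_not M c m hm, abs_zero]
      positivity

lemma mk_inj (M : Finset (Fin 2 →₀ ℕ)) : Function.Injective (mk M) := by
  intro c c' h
  funext m
  rw [← coeff_mk M c m, ← coeff_mk M c' m, h]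

lemma PB_finite (M : Finset (Fin 2 →₀ ℕ)) (H : ℕ) : (PB M H).Finite := by
  rw [PB_eq]
  exact (Finset.finite_toSet _).image _

lemma PB_ncard (M : Finset (Fin 2 →₀ ℕ)) (H : ℕ) : (PB M H).ncard = (2 * H + 1) ^ M.card := by
  rw [PB_eq, Set.ncard_image_of_injective _ (mk_inj M), Set.ncard_coe_finset,
    Fintype.card_piFinset]
  rw [Finset.prod_const, Int.card_Icc, Finset.card_univ, Fintype.card_coe]
  congr 1
  omega

/-- remove a monomial -/
noncomputable def er (m : Fin 2 →₀ ℕ) (F : P2) : P2 := F - monomial m (coeff m F)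

lemma coeff_er (m m' : Fin 2 →₀ ℕ) (F : P2) :
    coeff m' (er m F) = if m' = m then 0 else coeff m' F := by
  classical
  unfold er
  rw [coeff_sub, coeff_monomial]
  split_ifs with h1 h2 h2
  · rw [h2, sub_self]
  · exact absurd h1.symm h2
  · exact absurd h2.symm h1
  · rw [sub_zero]

/-- fibres over all the coefficients except for one -/
lemma fib (M : Finset (Fin 2 →₀ ℕ)) (H : ℕ) (m : Fin 2 →₀ ℕ) (hm : m ∈ M) (S : Set P2)
    (hS : S ⊆ PB M H) (k : ℕ) (hk : ∀ F ∈ S, {G ∈ S | er m G = er m F}.ncard ≤ k) :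
    S.ncard ≤ k * (2 * H + 1) ^ (M.card - 1) := by
  classical
  have hSf : S.Finite := (PB_finite M H).subset hS
  have h1 : S.ncard = hSf.toFinset.card := Set.ncard_eq_toFinset_card S hSf
  rw [h1]
  refine (Finset.card_le_mul_card_image (f := er m) hSf.toFinset k ?_).trans ?_
  · intro a ha
    obtain ⟨F, hF, rfl⟩ := Finset.mem_image.1 ha
    rw [Set.Finite.mem_toFinset] at hF
    refine le_trans (le_of_eq ?_) (hk F hF)
    rw [← Set.ncard_coe_finset]
    congr 1
    ext G
    simp
  · apply Nat.mul_le_mul_left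
    have h2 : (M.erase m).card = M.card - 1 := Finset.card_erase_of_mem hm
    rw [← h2, ← PB_ncard, ← Set.ncard_coe_finset]
    apply Set.ncard_le_ncard _ (PB_finite _ _)
    intro G hG
    rw [Finset.mem_coe, Finset.mem_image] at hG
    obtain ⟨F, hF, rfl⟩ := hG
    rw [Set.Finite.mem_toFinset] at hF
    have h3 := hS hF
    constructor
    · intro m' hm'
      rw [coeff_er]
      split_ifs with h
      · rfl
      · apply h3.1
        intro h4
        exact hm' (Finset.mem_erase.2 ⟨h, h4⟩)
    · intro m'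
      rw [coeff_er]
      split_ifs with h
      · rw [abs_zero]; positivity
      · exact h3.2 m'

/-- the monomials of degree at most `d` -/
noncomputable def mons (d : ℕ) : Finset (Fin 2 →₀ ℕ) :=
  (range (d + 1)).biUnion (fun e => (Finset.univ : Finset (Fin 2)).finsuppAntidiag e)

lemma mem_mons (d : ℕ) (m : Fin 2 →₀ ℕ) : m ∈ mons d ↔ m 0 + m 1 ≤ d := by
  unfold mons
  rw [Finset.mem_biUnion]
  constructor
  · rintro ⟨e, he, h⟩
    rw [Finset.mem_finsuppAntidiag] at h
    have h1 := h.1
    rw [Fin.sum_univ_two] at h1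
    rw [Finset.mem_range] at he
    omega
  · intro h
    refine ⟨m 0 + m 1, Finset.mem_range.2 (by omega), ?_⟩
    rw [Finset.mem_finsuppAntidiag]
    exact ⟨by rw [Fin.sum_univ_two], Finset.subset_univ _⟩

lemma card_mons (d : ℕ) : (mons d).card = (d + 1) * (d + 2) / 2 := by
  unfold mons
  rw [Finset.card_biUnion]
  · have h1 : ∀ e ∈ range (d + 1), ((Finset.univ : Finset (Fin 2)).finsuppAntidiag e).card = e + 1 := by
      intro e _
      rw [Finset.card_finsuppAntidiag_nat_eq_choose, Finset.card_univ, Fintype.card_fin]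
      have : 2 + e - 1 = e + 1 := by omega
      rw [this, Nat.choose_succ_self_right]
    rw [Finset.sum_congr rfl h1]
    have h2 : ∀ n : ℕ, 2 * ∑ e ∈ range (n + 1), (e + 1) = (n + 1) * (n + 2) := by
      intro n
      induction n with
      | zero => simp
      | succ n ih => rw [Finset.sum_range_succ, mul_add, ih]; ring
    have h3 := h2 d
    omega
  · intro a _ b _ hab
    rw [Function.onFun, Finset.disjoint_left]
    intro m h1 h2
    rw [Finset.mem_finsuppAntidiag] at h1 h2
    exact hab (h1.1.symm.trans h2.1)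

end Pool.Agent.Q196.SV
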