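import Pool.Agent.Q196.SV.Poly

/-! The fibres of the exceptional sets. -/

set_option autoImplicit false

namespace Pool.Agent.Q196.SV

open Finset Polynomial

lemma er_coeff {m : Fin 2 →₀ ℕ} {F G : P2} (h : er m G = er m F) (m' : Fin 2 →₀ ℕ) (hm : m' ≠ m) :
    MvPolynomial.coeff m' G = MvPolynomial.coeff m' F := by
  have h1 := congrArg (MvPolynomial.coeff m') h
  rwa [coeff_er, coeff_er, if_neg hm, if_neg hm] at h1

lemma er_eq {m : Fin 2 →₀ ℕ} {F G : P2} (h : er m G = er m F) :
    G = F + MvPolynomial.monomial m (MvPolynomial.coeff m G - MvPolynomial.coeff m F) := by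
  have h1 : G - MvPolynomial.monomial m (MvPolynomial.coeff m G) =
    F - MvPolynomial.monomial m (MvPolynomial.coeff m F) := h
  rw [map_sub]
  linear_combination h1

lemma er_ext {m : Fin 2 →₀ ℕ} {F G : P2} (h : er m G = er m F)
    (h' : MvPolynomial.coeff m G = MvPolynomial.coeff m F) : G = F := by
  rw [er_eq h, h', sub_self, MvPolynomial.monomial_zero, add_zero]

lemma fib_le {β : Type} {m : Fin 2 →₀ ℕ} {S : Set P2} {F : P2} (φ : P2 → β) (B : Finset β)
    (hB : ∀ G ∈ S, er m G = er m F → φ G ∈ B)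
    (hi : ∀ G ∈ S, er m G = er m F → ∀ G' ∈ S, er m G' = er m F → φ G = φ G' → G = G') :
    {G ∈ S | er m G = er m F}.ncard ≤ B.card := by
  classical
  rw [← Set.ncard_coe_finset B]
  exact Set.ncard_le_ncard_of_injOn φ (fun G hG => hB G hG.1 hG.2)
    (fun G hG G' hG' h => hi G hG.1 hG.2 G' hG'.1 hG'.2 h) (Finset.finite_toSet B)

/-- the coefficient of `y ^ d` vanishes -/
lemma fib1 (M : Finset (Fin 2 →₀ ℕ)) (H : ℕ) (m : Fin 2 →₀ ℕ) (hm : m ∈ M) :
    {F ∈ PB M H | MvPolynomial.coeff m F = 0}.ncard ≤ 1 * (2 * H + 1) ^ (M.card - 1) := by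
  refine fib M H m hm _ (fun F hF => hF.1) 1 ?_
  intro F hF
  refine (fib_le (fun _ => ()) {()} (fun _ _ _ => Finset.mem_singleton_self _) ?_).trans (by simp)
  intro G hG h G' hG' h' _
  apply er_ext (h.trans h'.symm)
  rw [hG.2, hG'.2]

/-- the polynomial `F_d(1, X)` is separable -/
def Sepc (d : ℕ) (F : P2) : Prop :=
  ∀ ξ : ℂ, Polynomial.aeval ξ (Pd d F) = 0 → Polynomial.aeval ξ (derivative (Pd d F)) ≠ 0

lemma Pd_er_ne {d : ℕ} {m : Fin 2 →₀ ℕ} {F G : P2} (h : er m G = er m F) (hm : m 0 + m 1 ≠ d) :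
    Pd d G = Pd d F := by
  unfold Pd
  apply Finset.sum_congr rfl
  intro m' hm'
  rw [Finset.mem_filter] at hm'
  rw [er_coeff h m']
  rintro rfl
  exact hm hm'.2

lemma Pd_er_x {d : ℕ} {F G : P2} (h : er (Finsupp.single 0 d) G = er (Finsupp.single 0 d) F) :
    Pd d G = Pd d F + Polynomial.C (MvPolynomial.coeff (Finsupp.single 0 d) G -
      MvPolynomial.coeff (Finsupp.single 0 d) F) := by
  classical
  have h1 : ∀ m ∈ (mons d).filter (fun m => m 0 + m 1 = d),
      Polynomial.C (MvPolynomial.coeff m G) * (X : ℤ[X]) ^ (m 1) -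
        Polynomial.C (MvPolynomial.coeff m F) * X ^ (m 1) =
      if m = Finsupp.single 0 d then Polynomial.C (MvPolynomial.coeff (Finsupp.single 0 d) G -
      MvPolynomial.coeff (Finsupp.single 0 d) F) else 0 := by
    intro m _
    split_ifs with hm
    · rw [hm]
      simp
    · rw [er_coeff h m hm, sub_self]
  have h2 : Pd d G - Pd d F = Polynomial.C (MvPolynomial.coeff (Finsupp.single 0 d) G -
      MvPolynomial.coeff (Finsupp.single 0 d) F) := by
    unfold Pd
    rw [← Finset.sum_sub_distrib, Finset.sum_congr rfl h1, Finset.sum_ite_eq', if_pos]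
    rw [Finset.mem_filter, mem_mons]
    simp
  linear_combination h2

lemma Pd_lead {d : ℕ} {F : P2} (hb : MvPolynomial.coeff (Finsupp.single 1 d) F ≠ 0) :
    (Pd d F).coeff d ≠ 0 := by
  have h := Pd_coeff d F (Finsupp.single 1 d) (by simp)
  rw [Finsupp.single_eq_same] at h
  rwa [h]

lemma Dg_of {d : ℕ} {M : Finset (Fin 2 →₀ ℕ)} (hM : M ⊆ mons d) {H : ℕ} {F : P2}
    (hF : F ∈ PB M H) : Dg d F := fun m hm => hF.1 m (fun h => hm (hM h))

lemma fib2 {d : ℕ} (hd : 1 ≤ d) {M : Finset (Fin 2 →₀ ℕ)}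
    (hx : Finsupp.single 0 d ∈ M) (H : ℕ) :
    {F ∈ PB M H | MvPolynomial.coeff (Finsupp.single 1 d) F ≠ 0 ∧ ¬ Sepc d F}.ncard ≤
      (d - 1) * (2 * H + 1) ^ (M.card - 1) := by
  classical
  refine fib M H (Finsupp.single 0 d) hx _ (fun F hF => hF.1) _ ?_
  intro F hF
  have hex : ∀ G : P2, ¬ Sepc d G → ∃ ξ : ℂ, Polynomial.aeval ξ (Pd d G) = 0 ∧
      Polynomial.aeval ξ (derivative (Pd d G)) = 0 := by
    intro G hG
    unfold Sepc at hG
    push Not at hG
    exact hG
  choose! φ hφ1 hφ2 using hex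
  let D : ℂ[X] := (derivative (Pd d F)).map (Int.castRingHom ℂ)
  have hder : (derivative (Pd d F)).coeff (d - 1) ≠ 0 := by
    rw [coeff_derivative]
    have h1 : d - 1 + 1 = d := by omega
    rw [h1]
    apply mul_ne_zero (Pd_lead hF.2.1)
    have : ((d - 1 : ℕ) : ℤ) + 1 ≠ 0 := by positivity
    exact this
  have hD0 : D ≠ 0 := by
    intro h
    have h1 : derivative (Pd d F) = 0 := by
      have := (Polynomial.map_eq_zero_iff (f := Int.castRingHom ℂ) Int.cast_injective).1 h
      exact this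
    rw [h1] at hder
    simp at hder
  refine (fib_le φ D.roots.toFinset ?_ ?_).trans ?_
  · intro G hG h
    rw [Multiset.mem_toFinset, mem_roots hD0, IsRoot.def]
    have h1 := hφ2 G hG.2.2
    have h2 : derivative (Pd d G) = derivative (Pd d F) := by
      rw [Pd_er_x h, derivative_add, derivative_C, add_zero]
    rw [h2] at h1
    rw [eval_map, ← h1, aeval_def]
    rfl
  · intro G hG h G' hG' h' hh
    have h3 := h.trans h'.symm
    apply er_ext h3
    have h4 := hφ1 G hG.2.2
    have h5 := hφ1 G' hG'.2.2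
    rw [Pd_er_x h3, map_add, hh, h5, zero_add, aeval_C] at h4
    have h6 : ((MvPolynomial.coeff (Finsupp.single 0 d) G -
      MvPolynomial.coeff (Finsupp.single 0 d) G' : ℤ) : ℂ) = 0 := by
      rw [← h4]
      simp
    have h7 := Int.cast_eq_zero.1 h6
    omega
  · refine (Multiset.toFinset_card_le _).trans ((card_roots' _).trans ?_)
    refine natDegree_map_le.trans ((natDegree_derivative_le _).trans ?_)
    have := Pd_natDegree d F
    omega

/-- there is a line with contact too large at infinity -/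
def LB (d : ℕ) (F : P2) : Prop := ∃ z w : ℝ, ∀ n, d ≤ n + 2 → (ln z w F).coeff n = 0

lemma fib3 {d : ℕ} (hd : 3 ≤ d) {M : Finset (Fin 2 →₀ ℕ)} (hM : M ⊆ mons d) {μ : Fin 2 →₀ ℕ}
    (hμM : μ ∈ M) (hμ : μ 0 + μ 1 = d - 2) (H : ℕ) :
    {F ∈ PB M H | MvPolynomial.coeff (Finsupp.single 1 d) F ≠ 0 ∧
      MvPolynomial.coeff (Finsupp.single 0 d) F ≠ 0 ∧ Sepc d F ∧ LB d F}.ncard ≤
      d * (2 * H + 1) ^ (M.card - 1) := by
  classical
  refine fib M H μ hμM _ (fun F hF => hF.1) _ ?_
  intro F hF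
  have hex : ∀ G : P2, LB d G → ∃ z w : ℝ, ∀ n, d ≤ n + 2 → (ln z w G).coeff n = 0 := fun G hG => hG
  choose! φ ψ hφ using hex
  let D : ℝ[X] := (Pd d F).map (Int.castRingHom ℝ)
  have hD0 : D ≠ 0 := by
    intro h
    have h1 : Pd d F = 0 :=
      (Polynomial.map_eq_zero_iff (f := Int.castRingHom ℝ) Int.cast_injective).1 h
    have := Pd_lead hF.2.1
    rw [h1] at this
    simp at this
  have hP : ∀ G : P2, er μ G = er μ F → Pd d G = Pd d F := by
    intro G h
    apply Pd_er_ne h
    omega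
  refine (fib_le φ D.roots.toFinset ?_ ?_).trans ?_
  · intro G hG h
    rw [Multiset.mem_toFinset, mem_roots hD0, IsRoot.def]
    have h1 := hφ G hG.2.2.2.2 d (by omega)
    rw [ln_coeff_d _ _ (Dg_of hM hG.1), hP G h] at h1
    rw [eval_map, ← h1, aeval_def]
    rfl
  · intro G hG h G' hG' h' hh
    have h3 := h.trans h'.symm
    apply er_ext h3
    have e1 := hφ G hG.2.2.2.2
    have e2 := hφ G' hG'.2.2.2.2
    rw [← hh] at e2
    set z := φ G with hz
    have h1 : Polynomial.aeval z (Pd d G) = 0 := by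
      rw [← ln_coeff_d z (ψ G) (Dg_of hM hG.1)]
      exact e1 d (by omega)
    have hz0 : z ≠ 0 := by
      intro h0
      rw [h0, Polynomial.aeval_def, Polynomial.eval₂_at_zero] at h1
      have h2 := Pd_coeff d G (Finsupp.single 0 d) (by simp)
      have h4 : (Finsupp.single 0 d : Fin 2 →₀ ℕ) 1 = 0 := by simp
      rw [h4] at h2
      rw [h2] at h1
      apply hG.2.2.1
      have h5 : ((MvPolynomial.coeff (Finsupp.single 0 d) G : ℤ) : ℝ) = 0 := by
        rw [← h1]; simp
      exact_mod_cast h5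
    have hln : ∀ w : ℝ, ln z w G = ln z w G' + Polynomial.C
        (((MvPolynomial.coeff μ G - MvPolynomial.coeff μ G' : ℤ)) : ℝ) *
        (X ^ (μ 0) * (Polynomial.C z * X + Polynomial.C w) ^ (μ 1)) := by
      intro w
      conv_lhs => rw [er_eq h3]
      unfold ln
      rw [map_add, MvPolynomial.aeval_monomial, Finsupp.prod_fintype _ _ (by intro i; simp),
        Fin.prod_univ_two]
      simp
    have hsep : Polynomial.aeval z (derivative (Pd d G)) ≠ 0 := by
      intro h0
      have c1 : ∀ p : ℤ[X], Polynomial.aeval (z : ℂ) p = ((Polynomial.aeval z p : ℝ) : ℂ) := by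
        intro p
        have := Polynomial.aeval_algebraMap_apply ℂ z p
        simpa using this
      apply hG.2.2.2.1 (z : ℂ)
      · rw [c1, h1]; simp
      · rw [c1, h0]; simp
    have hw : ψ G = ψ G' := by
      have k1 := ln_coeff_d1 z (ψ G) (ψ G') (by omega) (Dg_of hM hG.1)
      have k2 : (ln z (ψ G') G).coeff (d - 1) = 0 := by
        rw [hln, coeff_add, coeff_C_mul,
          coeff_eq_zero_of_natDegree_lt ((term_deg z _ _ _).trans_lt (by omega)), mul_zero, add_zero]
        exact e2 (d - 1) (by omega)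
      rw [k2, e1 (d - 1) (by omega), sub_zero] at k1
      rcases mul_eq_zero.1 k1.symm with h4 | h4
      · linarith
      · exact absurd h4 hsep
    have k3 := congrArg (fun p : ℝ[X] => p.coeff (d - 2)) (hln (ψ G))
    have k5 : ((X : ℝ[X]) ^ (μ 0) * (Polynomial.C z * X + Polynomial.C (ψ G)) ^ (μ 1)).coeff (d - 2) =
        z ^ (μ 1) := by
      rw [coeff_X_pow_mul', if_pos (by omega)]
      have h6 : d - 2 - μ 0 = μ 1 := by omega
      rw [h6]
      exact (lin_coeff z (ψ G) (μ 1)).1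
    simp only [coeff_add, coeff_C_mul] at k3
    rw [k5, e1 (d - 2) (by omega), hw, e2 (d - 2) (by omega), zero_add] at k3
    rcases mul_eq_zero.1 k3.symm with k4 | k4
    · have k4 := Int.cast_eq_zero.1 k4
      omega
    · exact absurd k4 (pow_ne_zero _ hz0)
  · refine (Multiset.toFinset_card_le _).trans ((card_roots' _).trans ?_)
    exact natDegree_map_le.trans (Pd_natDegree d F)

end Pool.Agent.Q196.SV
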