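import Pool.Agent.Q196.SV.Fib
import Pool.Agent.H674R3.SiegelE

/-! The exceptional set for effective bounds for the integer points on plane curves. -/

set_option autoImplicit false

namespace Pool.Agent.Q196.SV

open Finset Polynomial

/-- the exponent -/
def kk (d : ℕ) : ℕ := 10 ^ 17 * 1296 ^ d * (d + 1) ^ 15

/-- the curve `F = 0` is irreducible over `ℚ` and has a very large integer point -/
def Exc (d : ℕ) (F : P2) : Prop :=
  Irreducible (MvPolynomial.map (Int.castRingHom ℚ) F) ∧ ∃ x y : ℤ,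
    MvPolynomial.eval ![x, y] F = 0 ∧
    ((d + 1) * ∑ m ∈ F.support, (F.coeff m).natAbs) ^ kk d < max x.natAbs y.natAbs

lemma totalDegree_of {d : ℕ} {F : P2} (hF : Dg d F)
    (hb : MvPolynomial.coeff (Finsupp.single 1 d) F ≠ 0) : F.totalDegree = d := by
  apply le_antisymm
  · rw [MvPolynomial.totalDegree]
    apply Finset.sup_le
    intro m hm
    have h1 : m ∈ mons d := by
      by_contra h
      exact (MvPolynomial.mem_support_iff.1 hm) (hF m h)
    rw [mem_mons] at h1
    have h2 : (m.sum fun _ e => e) = m 0 + m 1 := by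
      rw [Finsupp.sum_fintype _ _ (by intro i; rfl), Fin.sum_univ_two]
    rw [h2]
    exact h1
  · have h1 := MvPolynomial.le_totalDegree (MvPolynomial.mem_support_iff.2 hb)
    rwa [Finsupp.sum_single_index rfl] at h1

lemma sqf {d : ℕ} {F : P2}
    (hb : MvPolynomial.coeff (Finsupp.single 1 d) F ≠ 0) (hs : Sepc d F) :
    Squarefree (MvPolynomial.map (Int.castRingHom ℚ) (MvPolynomial.homogeneousComponent d F)) := by
  obtain ⟨f, hf⟩ : ∃ f, f = MvPolynomial.map (Int.castRingHom ℚ)
    (MvPolynomial.homogeneousComponent d F) := ⟨_, rfl⟩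
  rw [← hf]
  have hhom : f.IsHomogeneous d := by
    rw [hf]
    exact (MvPolynomial.homogeneousComponent_isHomogeneous d F).map _
  have hP : MvPolynomial.aeval ![(1 : ℚ[X]), X] f = (Pd d F).map (Int.castRingHom ℚ) := by
    rw [← Pd_eq_aeval d F, hf]
    have h1 := MvPolynomial.map_aeval (R := ℤ) ![(1 : ℤ[X]), X] (Polynomial.mapRingHom (Int.castRingHom ℚ))
      (MvPolynomial.homogeneousComponent d F)
    rw [Polynomial.coe_mapRingHom] at h1
    rw [h1, MvPolynomial.aeval_def, MvPolynomial.eval₂_map]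
    rw [MvPolynomial.coe_eval₂Hom]
    congr 1
    · exact RingHom.ext_int _ _
    · funext i
      fin_cases i <;> simp
  have hPd : ((Pd d F).map (Int.castRingHom ℚ)).natDegree = d := by
    rw [natDegree_map_eq_of_injective (Int.castRingHom ℚ).injective_int]
    exact le_antisymm (Pd_natDegree d F) (le_natDegree_of_ne_zero (Pd_lead hb))
  have hP0 : (Pd d F).map (Int.castRingHom ℚ) ≠ 0 := by
    rw [Ne, Polynomial.map_eq_zero_iff (Int.castRingHom ℚ).injective_int]
    intro h
    have := Pd_lead hb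
    rw [h] at this
    simp at this
  have hf0 : f ≠ 0 := by
    rintro rfl
    rw [map_zero] at hP
    exact hP0 hP.symm
  intro G hG
  obtain ⟨R, hR⟩ := hG
  have hG0 : G ≠ 0 := by
    rintro rfl
    apply hf0
    rw [hR]
    ring
  have hR0 : R ≠ 0 := by
    rintro rfl
    apply hf0
    rw [hR, mul_zero]
  obtain ⟨g, hg⟩ : ∃ g, g = MvPolynomial.aeval ![(1 : ℚ[X]), X] G := ⟨_, rfl⟩
  obtain ⟨r, hr⟩ : ∃ r, r = MvPolynomial.aeval ![(1 : ℚ[X]), X] R := ⟨_, rfl⟩
  have hPg : (Pd d F).map (Int.castRingHom ℚ) = g * g * r := by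
    rw [← hP, hR, map_mul, map_mul, hg, hr]
  have hg0 : g ≠ 0 := by
    rintro h
    rw [h] at hPg
    apply hP0
    rw [hPg]
    ring
  have hr0 : r ≠ 0 := by
    rintro h
    rw [h, mul_zero] at hPg
    exact hP0 hPg
  have hgd : g.natDegree = 0 := by
    by_contra hne
    obtain ⟨ξ, hξ⟩ := IsAlgClosed.exists_aeval_eq_zero ℂ g (by
      rw [degree_eq_natDegree hg0]
      exact_mod_cast hne)
    have c1 : ∀ p : ℤ[X], Polynomial.aeval ξ p =
        Polynomial.aeval ξ (p.map (Int.castRingHom ℚ)) := by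
      intro p
      have : Int.castRingHom ℚ = algebraMap ℤ ℚ := rfl
      rw [this, Polynomial.aeval_map_algebraMap]
    apply hs ξ
    · rw [c1, hPg, map_mul, map_mul, hξ]
      ring
    · rw [c1, ← derivative_map, hPg, derivative_mul, derivative_mul]
      simp only [map_add, map_mul, hξ]
      ring
  have t1 : f.totalDegree = d := hhom.totalDegree hf0
  have t2 : f.totalDegree = G.totalDegree + G.totalDegree + R.totalDegree := by
    rw [hR, MvPolynomial.totalDegree_mul_of_isDomain (mul_ne_zero hG0 hG0) hR0,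
      MvPolynomial.totalDegree_mul_of_isDomain hG0 hG0]
  have t3 : r.natDegree ≤ R.totalDegree * 1 := by
    rw [hr]
    apply MvPolynomial.aeval_natDegree_le R le_rfl
    intro i
    fin_cases i <;> simp
  have t4 : ((Pd d F).map (Int.castRingHom ℚ)).natDegree = r.natDegree := by
    rw [hPg, natDegree_mul (mul_ne_zero hg0 hg0) hr0, natDegree_mul hg0 hg0, hgd]
    omega
  have t5 : G.totalDegree = 0 := by omega
  rw [MvPolynomial.totalDegree_eq_zero_iff_eq_C] at t5
  rw [t5] at hG0 ⊢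
  have hc : MvPolynomial.coeff 0 G ≠ 0 := by
    intro h
    rw [h, map_zero] at hG0
    exact hG0 rfl
  exact (isUnit_iff_ne_zero.2 hc).map MvPolynomial.C

lemma lines {d : ℕ} (hd : 4 ≤ d) {F : P2} (hF : Dg d F)
    (hb : MvPolynomial.coeff (Finsupp.single 1 d) F ≠ 0) (hl : ¬ LB d F)
    (p q : Fin 2 → ℝ) (hq : q ≠ 0) :
    d ≤ (MvPolynomial.aeval (fun i => (Polynomial.C (p i) + Polynomial.C (q i) * X : ℝ[X]))
      F).natDegree + 2 := by
  classical
  by_contra hcon
  push Not at hcon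
  have hfun : (fun i => (Polynomial.C (p i) + Polynomial.C (q i) * X : ℝ[X])) =
      ![(Polynomial.C (p 0) + Polynomial.C (q 0) * X : ℝ[X]),
        Polynomial.C (p 1) + Polynomial.C (q 1) * X] := by
    funext i
    fin_cases i <;> simp
  rw [hfun] at hcon
  by_cases h0 : q 0 = 0
  · have h1 : q 1 ≠ 0 := by
      intro h1
      apply hq
      funext i
      fin_cases i
      · exact h0
      · exact h1
    rw [h0, map_zero, zero_mul, add_zero] at hcon
    have hdeg : ∀ i j : ℕ, ((Polynomial.C (p 0) : ℝ[X]) ^ i *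
        (Polynomial.C (p 1) + Polynomial.C (q 1) * X) ^ j).natDegree ≤ j := by
      intro i j
      rw [← Polynomial.C_pow]
      refine (natDegree_C_mul_le _ _).trans (natDegree_pow_le.trans ?_)
      calc j * _ ≤ j * 1 := Nat.mul_le_mul_left _ (by compute_degree)
        _ = j := mul_one j
    have hc : (MvPolynomial.aeval ![(Polynomial.C (p 0) : ℝ[X]),
        Polynomial.C (p 1) + Polynomial.C (q 1) * X] F).coeff d =
        ((MvPolynomial.coeff (Finsupp.single 1 d) F : ℤ) : ℝ) * (q 1) ^ d := by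
      rw [aeval_eq _ _ hF, finsetSum_coeff, Finset.sum_eq_single (Finsupp.single 1 d)]
      · have e1 : (Finsupp.single 1 d : Fin 2 →₀ ℕ) 0 = 0 := by simp
        have e2 : (Finsupp.single 1 d : Fin 2 →₀ ℕ) 1 = d := by simp
        rw [e1, e2, pow_zero, one_mul, ← Polynomial.C_eq_intCast, coeff_C_mul]
        congr 1
        have h3 : Polynomial.C (p 1) + Polynomial.C (q 1) * X =
          Polynomial.C (q 1) * X + Polynomial.C (p 1) := add_comm _ _
        rw [h3]
        exact (lin_coeff (q 1) (p 1) d).1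
      · intro m hm hne
        rw [mem_mons] at hm
        have h5 : m 1 < d := by
          by_contra h6
          apply hne
          ext i
          fin_cases i
          · simp; omega
          · simp; omega
        rw [← Polynomial.C_eq_intCast, coeff_C_mul,
          coeff_eq_zero_of_natDegree_lt ((hdeg _ _).trans_lt h5), mul_zero]
      · intro h
        exact absurd ((mem_mons _ _).2 (by simp)) h
    rw [coeff_eq_zero_of_natDegree_lt (by omega)] at hc
    rcases mul_eq_zero.1 hc.symm with h | h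
    · exact hb (by exact_mod_cast h)
    · exact h1 (pow_eq_zero_iff (by omega) |>.1 h)
  · apply hl
    refine ⟨q 1 / q 0, p 1 - q 1 / q 0 * p 0, ?_⟩
    have hcomp : (ln (q 1 / q 0) (p 1 - q 1 / q 0 * p 0) F).comp
        (Polynomial.C (p 0) + Polynomial.C (q 0) * X) =
        MvPolynomial.aeval ![(Polynomial.C (p 0) + Polynomial.C (q 0) * X : ℝ[X]),
        Polynomial.C (p 1) + Polynomial.C (q 1) * X] F := by
      have h1 := MvPolynomial.comp_aeval_apply (R := ℤ)
        ![(X : ℝ[X]), Polynomial.C (q 1 / q 0) * X + Polynomial.C (p 1 - q 1 / q 0 * p 0)]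
        ((Polynomial.compRingHom (Polynomial.C (p 0) + Polynomial.C (q 0) * X)).toIntAlgHom) F
      change _ = _ at h1
      rw [show (ln (q 1 / q 0) (p 1 - q 1 / q 0 * p 0) F).comp
        (Polynomial.C (p 0) + Polynomial.C (q 0) * X) = _ from h1]
      congr 2
      funext i
      fin_cases i
      · change (X : ℝ[X]).comp (Polynomial.C (p 0) + Polynomial.C (q 0) * X) = _
        rw [X_comp]
        rfl
      · change (Polynomial.C (q 1 / q 0) * X + Polynomial.C (p 1 - q 1 / q 0 * p 0) : ℝ[X]).comp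
          (Polynomial.C (p 0) + Polynomial.C (q 0) * X) = Polynomial.C (p 1) + Polynomial.C (q 1) * X
        rw [add_comp, mul_comp, C_comp, C_comp, X_comp]
        have h2 : q 1 = q 1 / q 0 * q 0 := by field_simp
        have h3 : (Polynomial.C (q 1) : ℝ[X]) = Polynomial.C (q 1 / q 0) * Polynomial.C (q 0) := by
          rw [← Polynomial.C_mul, ← h2]
        rw [Polynomial.C_sub, Polynomial.C_mul, h3]
        ring
    have hs1 : (Polynomial.C (p 0) + Polynomial.C (q 0) * X : ℝ[X]).natDegree = 1 := by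
      rw [add_comm]
      exact natDegree_linear h0
    have hn : (ln (q 1 / q 0) (p 1 - q 1 / q 0 * p 0) F).natDegree + 2 < d := by
      have h4 := natDegree_comp (p := ln (q 1 / q 0) (p 1 - q 1 / q 0 * p 0) F)
        (q := Polynomial.C (p 0) + Polynomial.C (q 0) * X)
      rw [hs1, mul_one, hcomp] at h4
      omega
    intro n hn'
    exact coeff_eq_zero_of_natDegree_lt (by omega)

lemma fib4 {d : ℕ} (hd : 4 ≤ d) {M : Finset (Fin 2 →₀ ℕ)} (hM : M ⊆ mons d) {μ : Fin 2 →₀ ℕ}
    (hμM : μ ∈ M) (hμ : μ 0 + μ 1 + 4 ≤ d) (H : ℕ) :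
    {F ∈ PB M H | MvPolynomial.coeff (Finsupp.single 1 d) F ≠ 0 ∧ Sepc d F ∧ ¬ LB d F ∧
      Exc d F}.ncard ≤
      (10 ^ 9 * 36 ^ d * (d + 1) ^ 7 * d) * (2 * H + 1) ^ (M.card - 1) := by
  classical
  refine fib M H μ hμM _ (fun F hF => hF.1) _ ?_
  rintro F ⟨hF, hb, hs, hl, he⟩
  have hDg := Dg_of hM hF
  have htd := totalDegree_of hDg hb
  have h0 := Pool.Agent.H674R3.main6 F (by rw [htd]; exact hd) (by
    rw [htd]; exact sqf hb hs) (fun _ p q hq => by
    have := lines hd hDg hb hl p q hq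
    rw [htd]
    exact this)
  rw [htd] at h0
  have h1 : {G ∈ {F ∈ PB M H | MvPolynomial.coeff (Finsupp.single 1 d) F ≠ 0 ∧ Sepc d F ∧
      ¬ LB d F ∧ Exc d F} | er μ G = er μ F}.encard ≤
      (Pool.Agent.H322R2.kN d * d : ℕ) := by
    refine le_trans ?_ h0
    refine le_trans (Set.encard_le_encard ?_) (Set.encard_image_le (fun t => t.1) _)
    rintro G ⟨⟨hG, -, -, -, hi, x, y, h2, h3⟩, hGF⟩
    refine ⟨(G, x, y), ⟨?_, hi, h2, h3⟩, rfl⟩
    dsimp only
    have h4 : G - F = MvPolynomial.monomial μ (MvPolynomial.coeff μ G - MvPolynomial.coeff μ F) := by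
      have := er_eq hGF
      linear_combination this
    rw [h4]
    have h5 := MvPolynomial.totalDegree_monomial_le (R := ℤ) μ
      (MvPolynomial.coeff μ G - MvPolynomial.coeff μ F)
    have h6 : (μ.sum fun _ e => e) = μ 0 + μ 1 := by
      rw [Finsupp.sum_fintype _ _ (by intro i; rfl), Fin.sum_univ_two]
    have h7 : (μ.sum fun _ => id) = μ 0 + μ 1 := h6
    omega
  have h2 : {G ∈ {F ∈ PB M H | MvPolynomial.coeff (Finsupp.single 1 d) F ≠ 0 ∧ Sepc d F ∧
      ¬ LB d F ∧ Exc d F} | er μ G = er μ F}.ncard ≤ Pool.Agent.H322R2.kN d * d := by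
    rw [Set.ncard]
    exact ENat.toNat_le_of_le_natCast h1
  exact h2

theorem main {d : ℕ} (hd : 4 ≤ d) {M : Finset (Fin 2 →₀ ℕ)} (hM : M ⊆ mons d)
    (hx : Finsupp.single 0 d ∈ M) (hy : Finsupp.single 1 d ∈ M)
    (h2' : ∃ μ ∈ M, μ 0 + μ 1 + 2 = d) (h4' : ∃ μ ∈ M, μ 0 + μ 1 + 4 ≤ d) (H : ℕ) :
    {F ∈ PB M H | Exc d F}.ncard ≤
      (2 * d + 1 + 10 ^ 9 * 36 ^ d * (d + 1) ^ 7 * d) * (2 * H + 1) ^ (M.card - 1) := by
  classical
  obtain ⟨μ, hμM, hμ⟩ := h2'
  obtain ⟨ν, hνM, hν⟩ := h4'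
  have h1 := fib1 M H (Finsupp.single 1 d) hy
  have h1' := fib1 M H (Finsupp.single 0 d) hx
  have h2 := fib2 (d := d) (by omega) hx H
  have h3 := fib3 (d := d) (by omega) hM hμM (by omega) H
  have h4 := fib4 hd hM hνM hν H
  have hsub : {F ∈ PB M H | Exc d F} ⊆
      (({F ∈ PB M H | MvPolynomial.coeff (Finsupp.single 1 d) F = 0} ∪
        {F ∈ PB M H | MvPolynomial.coeff (Finsupp.single 0 d) F = 0}) ∪
      {F ∈ PB M H | MvPolynomial.coeff (Finsupp.single 1 d) F ≠ 0 ∧ ¬ Sepc d F}) ∪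
      ({F ∈ PB M H | MvPolynomial.coeff (Finsupp.single 1 d) F ≠ 0 ∧
        MvPolynomial.coeff (Finsupp.single 0 d) F ≠ 0 ∧ Sepc d F ∧ LB d F} ∪
      {F ∈ PB M H | MvPolynomial.coeff (Finsupp.single 1 d) F ≠ 0 ∧ Sepc d F ∧ ¬ LB d F ∧
      Exc d F}) := by
    rintro F ⟨hF, he⟩
    by_cases hb : MvPolynomial.coeff (Finsupp.single 1 d) F = 0
    · exact Or.inl (Or.inl (Or.inl ⟨hF, hb⟩))
    · by_cases ha : MvPolynomial.coeff (Finsupp.single 0 d) F = 0
      · exact Or.inl (Or.inl (Or.inr ⟨hF, ha⟩))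
      · by_cases hs : Sepc d F
        · by_cases hl : LB d F
          · exact Or.inr (Or.inl ⟨hF, hb, ha, hs, hl⟩)
          · exact Or.inr (Or.inr ⟨hF, hb, hs, hl, he⟩)
        · exact Or.inl (Or.inr ⟨hF, hb, hs⟩)
  have hfin := PB_finite M H
  refine (Set.ncard_le_ncard hsub (by
    refine hfin.subset ?_
    rintro F ((((hF | hF) | hF)) | (hF | hF)) <;> exact hF.1)).trans ?_
  refine (Set.ncard_union_le _ _).trans ?_
  refine (Nat.add_le_add ((Set.ncard_union_le _ _).trans (Nat.add_le_add_right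
    (Set.ncard_union_le _ _) _)) (Set.ncard_union_le _ _)).trans ?_
  refine (Nat.add_le_add (Nat.add_le_add (Nat.add_le_add h1 h1') h2) (Nat.add_le_add h3 h4)).trans ?_
  rw [← add_mul, ← add_mul, ← add_mul, ← add_mul]
  apply Nat.mul_le_mul_right
  omega

end Pool.Agent.Q196.SV
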