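import Pool.Agent.Q196.SV.Count

/-! The forms of degree `d` and the restrictions to lines. -/

set_option autoImplicit false

namespace Pool.Agent.Q196.SV

open Finset Polynomial

/-- all monomials have degree at most `d` -/
def Dg (d : ℕ) (F : P2) : Prop := ∀ m, m ∉ mons d → MvPolynomial.coeff m F = 0

lemma aeval_eq {A : Type*} [CommRing A] [Algebra ℤ A] (u v : A) {d : ℕ} {F : P2} (hF : Dg d F) :
    MvPolynomial.aeval ![u, v] F =
      ∑ m ∈ mons d, ((MvPolynomial.coeff m F : ℤ) : A) * (u ^ (m 0) * v ^ (m 1)) := by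
  classical
  rw [MvPolynomial.aeval_def, MvPolynomial.eval₂_eq']
  have h1 : F.support ⊆ mons d := by
    intro m hm
    by_contra h
    exact (MvPolynomial.mem_support_iff.1 hm) (hF m h)
  rw [Finset.sum_subset h1]
  · apply Finset.sum_congr rfl
    intro m _
    rw [Fin.prod_univ_two]
    simp
  · intro m _ hm
    rw [MvPolynomial.notMem_support_iff.1 hm]
    simp

/-- the form of degree `d` at `(1, X)` -/
noncomputable def Pd (d : ℕ) (F : P2) : ℤ[X] :=
  ∑ m ∈ (mons d).filter (fun m => m 0 + m 1 = d), Polynomial.C (MvPolynomial.coeff m F) * X ^ (m 1)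

lemma Pd_natDegree (d : ℕ) (F : P2) : (Pd d F).natDegree ≤ d := by
  unfold Pd
  apply natDegree_sum_le_of_forall_le
  intro m hm
  rw [Finset.mem_filter] at hm
  refine (natDegree_C_mul_X_pow_le _ _).trans ?_
  omega

lemma Pd_coeff (d : ℕ) (F : P2) (m : Fin 2 →₀ ℕ) (hm : m 0 + m 1 = d) :
    (Pd d F).coeff (m 1) = MvPolynomial.coeff m F := by
  classical
  unfold Pd
  rw [finsetSum_coeff, Finset.sum_eq_single m]
  · rw [coeff_C_mul, coeff_X_pow, if_pos rfl, mul_one]
  · intro b hb hbm
    rw [coeff_C_mul, coeff_X_pow, if_neg, mul_zero]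
    intro h
    apply hbm
    rw [Finset.mem_filter] at hb
    ext i
    fin_cases i
    · have := hb.2
      simp only [Fin.zero_eta]
      omega
    · exact h.symm
  · intro h
    exact absurd (Finset.mem_filter.2 ⟨(mem_mons d m).2 hm.le, hm⟩) h

lemma Pd_eq_aeval (d : ℕ) (F : P2) :
    MvPolynomial.aeval ![(1 : ℤ[X]), X] (MvPolynomial.homogeneousComponent d F) = Pd d F := by
  classical
  rw [MvPolynomial.homogeneousComponent_apply, map_sum]
  have h1 : F.support.filter (fun m => m.degree = d) ⊆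
      (mons d).filter (fun m => m 0 + m 1 = d) := by
    intro m hm
    rw [Finset.mem_filter] at hm ⊢
    have h2 : m.degree = m 0 + m 1 := by rw [Finsupp.degree_eq_sum, Fin.sum_univ_two]
    exact ⟨(mem_mons d m).2 (by omega), by omega⟩
  unfold Pd
  rw [← Finset.sum_subset h1]
  · apply Finset.sum_congr rfl
    intro m _
    rw [MvPolynomial.aeval_monomial, Finsupp.prod_fintype _ _ (by intro i; simp),
      Fin.prod_univ_two]
    simp
  · intro m hm hm'
    rw [Finset.mem_filter] at hm
    have h3 : MvPolynomial.coeff m F = 0 := by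
      by_contra h
      apply hm'
      rw [Finset.mem_filter]
      refine ⟨MvPolynomial.mem_support_iff.2 h, ?_⟩
      rw [Finsupp.degree_eq_sum, Fin.sum_univ_two]
      exact hm.2
    rw [h3]
    simp

/-- the restriction to the line `y = z x + w` -/
noncomputable def ln (z w : ℝ) (F : P2) : ℝ[X] :=
  MvPolynomial.aeval ![(X : ℝ[X]), Polynomial.C z * X + Polynomial.C w] F

lemma lin_deg (z w : ℝ) (j : ℕ) :
    ((Polynomial.C z * X + Polynomial.C w : ℝ[X]) ^ j).natDegree ≤ j := by
  refine natDegree_pow_le.trans ?_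
  calc j * _ ≤ j * 1 := Nat.mul_le_mul_left _ (by compute_degree)
    _ = j := mul_one j

lemma lin_coeff (z w : ℝ) (j : ℕ) :
    ((Polynomial.C z * X + Polynomial.C w : ℝ[X]) ^ j).coeff j = z ^ j ∧
    ((Polynomial.C z * X + Polynomial.C w : ℝ[X]) ^ (j + 1)).coeff j = (j + 1) * z ^ j * w := by
  have key : ∀ (p : ℝ[X]) (n : ℕ), (p * (Polynomial.C z * X + Polynomial.C w)).coeff (n + 1) =
      p.coeff n * z + p.coeff (n + 1) * w := by
    intro p n
    rw [mul_add, coeff_add, ← mul_assoc, coeff_mul_X, coeff_mul_C, coeff_mul_C]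
  induction j with
  | zero => simp
  | succ j ih =>
    constructor
    · rw [pow_succ, key, ih.1, coeff_eq_zero_of_natDegree_lt ((lin_deg z w j).trans_lt (by omega))]
      ring
    · rw [pow_succ, key, ih.2]
      have h1 : ((Polynomial.C z * X + Polynomial.C w : ℝ[X]) ^ (j + 1)).coeff (j + 1) =
          z ^ (j + 1) := by
        rw [pow_succ, key, ih.1,
          coeff_eq_zero_of_natDegree_lt ((lin_deg z w j).trans_lt (by omega))]
        ring
      rw [h1]
      push_cast
      ring

lemma ln_eq (z w : ℝ) {d : ℕ} {F : P2} (hF : Dg d F) : ln z w F =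
    ∑ m ∈ mons d, Polynomial.C ((MvPolynomial.coeff m F : ℤ) : ℝ) *
      (X ^ (m 0) * (Polynomial.C z * X + Polynomial.C w) ^ (m 1)) := by
  unfold ln
  rw [aeval_eq _ _ hF]
  apply Finset.sum_congr rfl
  intro m _
  simp

lemma term_deg (z w : ℝ) (i j : ℕ) :
    (X ^ i * (Polynomial.C z * X + Polynomial.C w : ℝ[X]) ^ j).natDegree ≤ i + j := by
  refine natDegree_mul_le.trans ?_
  have := lin_deg z w j
  have := natDegree_X_pow_le (R := ℝ) i
  omega

lemma ln_coeff_d (z w : ℝ) {d : ℕ} {F : P2} (hF : Dg d F) :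
    (ln z w F).coeff d = Polynomial.aeval z (Pd d F) := by
  classical
  rw [ln_eq z w hF, finsetSum_coeff, Pd, map_sum, Finset.sum_filter]
  apply Finset.sum_congr rfl
  intro m hm
  rw [mem_mons] at hm
  split_ifs with h
  · rw [coeff_C_mul, coeff_X_pow_mul', if_pos (by omega)]
    have h1 : d - m 0 = m 1 := by omega
    rw [h1, (lin_coeff z w (m 1)).1]
    simp
  · rw [coeff_C_mul, coeff_eq_zero_of_natDegree_lt ((term_deg z w _ _).trans_lt (by omega)),
      mul_zero]

lemma ln_coeff_d1 (z w w' : ℝ) {d : ℕ} (hd : 1 ≤ d) {F : P2} (hF : Dg d F) :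
    (ln z w F).coeff (d - 1) - (ln z w' F).coeff (d - 1) =
      (w - w') * Polynomial.aeval z (derivative (Pd d F)) := by
  classical
  rw [ln_eq z w hF, ln_eq z w' hF, finsetSum_coeff, finsetSum_coeff, ← Finset.sum_sub_distrib, Pd,
    map_sum, map_sum, Finset.mul_sum, Finset.sum_filter]
  apply Finset.sum_congr rfl
  intro m hm
  rw [mem_mons] at hm
  rw [coeff_C_mul, coeff_C_mul, coeff_X_pow_mul', coeff_X_pow_mul']
  by_cases h0 : m 0 ≤ d - 1
  · rw [if_pos h0, if_pos h0]
    split_ifs with h
    · have h1 : d - 1 - m 0 + 1 = m 1 := by omega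
      rw [← h1, (lin_coeff z w _).2, (lin_coeff z w' _).2, derivative_C_mul_X_pow]
      simp
      ring
    · by_cases h2 : m 0 + m 1 = d - 1
      · have h3 : d - 1 - m 0 = m 1 := by omega
        rw [h3, (lin_coeff z w _).1, (lin_coeff z w' _).1]
        ring
      · rw [coeff_eq_zero_of_natDegree_lt ((lin_deg z w _).trans_lt (by omega)),
          coeff_eq_zero_of_natDegree_lt ((lin_deg z w' _).trans_lt (by omega))]
        ring
  · rw [if_neg h0, if_neg h0]
    split_ifs with h
    · have h1 : m 1 = 0 := by omega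
      rw [h1]
      simp
    · ring

end Pool.Agent.Q196.SV
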